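import Pool.Agent.helper33.SP.SpecC1

/-!
# Project sp, module UI6: independence of the three events of `gapE`
-/

namespace TP

open DP MeasureTheory

theorem UI6_indep (hI : Bindep_stmt) (hZ : Bzero_stmt) {F F' : Set (V → Bool)} {A A' : Set V}
    (hA : BDis A A') (hF : Loc F A) (hF' : Loc F' A') : Pr (F ∩ F') = Pr F * Pr F' := by
  have h1 := hI (fun _ => 0) F F F' F' A A' hA hF hF hF' hF'
  have h2 := hZ (fun _ => 0) F F A hF hF (fun _ _ => rfl)
  have h3 := hZ (fun _ => 0) F' F' A' hF' hF' (fun _ _ => rfl)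
  have h4 := hZ (fun _ => 0) (F ∩ F') (F ∩ F') (A ∪ A') (hF.inter hF') (hF.inter hF')
    (fun _ _ => rfl)
  rw [h2, h3, h4, Set.inter_self, Set.inter_self, Set.inter_self] at h1
  exact h1

theorem UI6_sd {x v w : V} {a b : ℕ} (hv : sd x v ≤ a) (hw : b ≤ sd x w) (hab : a + 2 ≤ b) :
    2 ≤ sd v w := by
  unfold sd at *
  omega

theorem UI6_main (h5 : UI5_stmt) (hI : Bindep_stmt) (hZ : Bzero_stmt)
    (x : V) (r m' m n n' N : ℕ) (hm : m' + 2 ≤ m) (hmn : m ≤ n) (hn : n + 2 ≤ n') :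
    Pr (gapE x r m' m n n' N) = Pr (Ev fun c => four c x r m') * Pr (Ev fun c => six c x m n) *
      Pr (Ev fun c => four c x n' N) := by
  have h1 := (h5 x r m').1
  have h2 := (h5 x m n).2
  have h3 := (h5 x n' N).1
  have e : gapE x r m' m n n' N = (Ev fun c => four c x r m') ∩
      ((Ev fun c => six c x m n) ∩ (Ev fun c => four c x n' N)) := rfl
  rw [e]
  have d1 : BDis (ann x m n) (ann x n' N) := BDis.of_sd fun v hv w hw => UI6_sd hv.2 hw.1 hn
  have d2 : BDis (ann x r m') (ann x m n ∪ ann x n' N) := BDis.of_sd fun v hv w hw => by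
    rcases hw with hw | hw
    · exact UI6_sd hv.2 hw.1 hm
    · exact UI6_sd hv.2 hw.1 (by omega)
  rw [UI6_indep hI hZ d2 h1 (h2.inter h3), UI6_indep hI hZ d1 h2 h3, mul_assoc]

theorem UI6 (h5 : UI5_stmt) (hI : Bindep_stmt) (hZ : Bzero_stmt) : UI6_stmt :=
  fun x r m' m n n' N hm hmn hn => UI6_main h5 hI hZ x r m' m n n' N hm hmn hn

end TP
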