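import Pool.Agent.helper49.SP.SpecAS
import Pool.Agent.helper64.TP.Conv

/-!
# Project sp, module ASB3: Markov's inequality for counts, both laws
-/

namespace TP

open DP MeasureTheory

theorem B3_rect_finite (a b c d : ℤ) : (rect a b c d).Finite := by
  refine ((Set.finite_Icc a b).prod (Set.finite_Icc c d)).subset ?_
  rintro ⟨x, y⟩ ⟨h1, h2, h3, h4⟩
  exact ⟨⟨h1, h2⟩, ⟨h3, h4⟩⟩

theorem B3_Fc_loc (i : ℕ) : ∃ M : Finset V, DP.Dep (Fc i) (M : Set V) := by
  have h : Loc (Fc i) (rect 1 (2 * 2 ^ i) 0 (hh (2 ^ i))) := by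
    unfold Fc
    refine Loc.ev (B3_rect_finite _ _ _ _) fun c c' hc => ?_
    unfold hcross
    refine exists_congr fun u => exists_congr fun v => ?_
    rw [Conn.congr hc]
  obtain ⟨Λ, _, hΛ⟩ := h.coin
  exact ⟨Λ, hΛ⟩

theorem B3_piv {F : Set (V → Bool)} {M : Set V} (h : DP.Dep F M) (B : Set V) (b b' : V → Bool)
    (hb : ∀ v ∈ M, b v = b' v) (hp : b ∈ Piv B F) : b' ∈ Piv B F := by
  classical
  obtain ⟨c, c', hc, h1, h2⟩ := hp
  refine ⟨fun v => if v ∈ B then c v else b' v, fun v => if v ∈ B then c' v else b' v, ?_, ?_, ?_⟩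
  · intro v hv
    simp only [if_neg hv, and_self]
  · refine (h c _ ?_).mp h1
    intro v hv
    by_cases hvB : v ∈ B
    · simp only [if_pos hvB]
    · simp only [if_neg hvB]
      rw [← hb v hv, (hc v hvB).1]
  · refine fun h3 => h2 ((h c' _ ?_).mpr h3)
    intro v hv
    by_cases hvB : v ∈ B
    · simp only [if_pos hvB]
    · simp only [if_neg hvB]
      rw [← hb v hv, (hc v hvB).2]

theorem B3_meas (i : ℕ) (A : Set V → Prop) : MeasurableSet {b : V → Bool | A (PV i b)} := by
  obtain ⟨M, hM⟩ := B3_Fc_loc i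
  refine DP.Dep.measurableSet (Λ := M) ?_
  intro b b' hb
  have : PV i b = PV i b' := by
    unfold PV
    ext v
    exact and_congr_right fun _ => ⟨B3_piv hM {v} b b' hb,
      B3_piv hM {v} b' b fun w hw => (hb w hw).symm⟩
  show A (PV i b) ↔ A (PV i b')
  rw [this]

open Classical in
theorem B3 : B3_stmt := by
  intro i G A T hT
  constructor
  · rw [le_div_iff₀ hT]
    unfold PS PSF
    rw [Finset.sum_comm, Finset.sum_mul]
    refine Finset.sum_le_sum fun X _ => ?_
    have h1 : ∑ x ∈ G, (if A x (X : Set V) then fh (Fc i) X ^ 2 else 0) =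
        ((G.filter fun x => A x (X : Set V)).card : ℝ) * fh (Fc i) X ^ 2 := by
      rw [← Finset.sum_filter, Finset.sum_const, nsmul_eq_mul]
    rw [h1]
    have h0 : 0 ≤ fh (Fc i) X ^ 2 := sq_nonneg _
    split_ifs with h
    · rw [mul_comm]
      exact mul_le_mul_of_nonneg_right h h0
    · rw [zero_mul]
      exact mul_nonneg (Nat.cast_nonneg _) h0
  · rw [le_div_iff₀ hT]
    set f : (V → Bool) → ℝ := fun b => ((G.filter fun x => A x (PV i b)).card : ℝ) with hf
    have hf' : f = fun b => ∑ x ∈ G, Set.indicator {b : V → Bool | A x (PV i b)} (fun _ => (1 : ℝ)) b := by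
      funext b
      rw [hf]
      simp only [Set.indicator_apply]
      rw [← Finset.sum_filter, Finset.sum_const, nsmul_eq_mul, mul_one]
      rfl
    have hint : ∀ x ∈ G, Integrable (Set.indicator {b : V → Bool | A x (PV i b)} (fun _ => (1 : ℝ))) P1 :=
      fun x _ => (integrable_const 1).indicator (B3_meas i (A x))
    have hI : Integrable f P1 := by
      rw [hf']
      exact integrable_finset_sum G hint
    have hval : ∫ b, f b ∂P1 = ∑ x ∈ G, PPv i (A x) := by
      rw [hf', integral_finset_sum G hint]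
      refine Finset.sum_congr rfl fun x _ => ?_
      rw [integral_indicator_const _ (B3_meas i (A x))]
      simp only [smul_eq_mul, mul_one]
      rfl
    have hM := mul_meas_ge_le_integral_of_nonneg (μ := P1) (f := f)
      (Filter.Eventually.of_forall fun b => Nat.cast_nonneg _) hI T
    rw [hval] at hM
    rw [mul_comm]
    exact hM

end TP
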